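import Mathlib

/-! # Determinants of the product of a unit simplex with an integral point set -/

set_option autoImplicit false

namespace H43SN

open Finset

/-- The point with the vertex `g` of the unit simplex and the vector `y`. -/
def pt {a b : ℕ} (g : Fin (a + 1)) (y : Fin b → ℤ) : Fin (a + b) → ℤ := fun j =>
  Sum.elim (fun k : Fin a => if g = k.succ then 1 else 0) y (finSumFinEquiv.symm j)

/-- The determinant of the differences is a bordered determinant. -/
theorem det_border {d : ℕ} (X : Fin (d + 1) → Fin d → ℤ) :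
    (Matrix.of fun i j : Fin d => X i.succ j - X 0 j).det =
      (Matrix.of fun i : Fin (d + 1) => (Fin.cons 1 (X i) : Fin (d + 1) → ℤ)).det := by
  set B : Matrix (Fin (d + 1)) (Fin (d + 1)) ℤ := Matrix.of fun i => (Fin.cons 1 (X i) : Fin (d + 1) → ℤ) with hB
  set B1 : Matrix (Fin (d + 1)) (Fin (d + 1)) ℤ := Matrix.of fun i j => if i = 0 then B 0 j else B i j - B 0 j
    with hB1
  have h1 : B.det = B1.det := by
    refine Matrix.det_eq_of_forall_row_eq_smul_add_const (fun i => if i = 0 then 0 else 1) 0 (by simp) ?_
    intro i j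
    simp only [hB1, Matrix.of_apply]
    by_cases hi : i = 0
    · simp [hi]
    · simp [hi]
  rw [h1, Matrix.det_succ_column_zero, Finset.sum_eq_single 0]
  · simp only [hB1, hB, Matrix.of_apply, if_true, Fin.cons_zero, Fin.val_zero, pow_zero, one_mul]
    congr 1
  · intro i _ hi
    have : B1 i 0 = 0 := by
      simp [hB1, hB, hi]
    rw [this]
    ring
  · intro h
    exact absurd (mem_univ _) h

private def cols (a b : ℕ) : Fin (a + b + 1) → Fin (a + 1) ⊕ Fin b :=
  Fin.cases (Sum.inl 0) fun j => Sum.map Fin.succ id (finSumFinEquiv.symm j)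

private lemma cols_bij (a b : ℕ) : Function.Bijective (cols a b) := by
  rw [Fintype.bijective_iff_injective_and_card]
  constructor
  · intro i j
    refine Fin.cases ?_ (fun i' => ?_) i
    · refine Fin.cases (fun _ => rfl) (fun j' h => ?_) j
      exfalso
      simp only [cols, Fin.cases_zero, Fin.cases_succ] at h
      cases hj : finSumFinEquiv.symm j' with
      | inl k =>
        rw [hj] at h
        simp only [Sum.map_inl, Sum.inl.injEq] at h
        exact (Fin.succ_ne_zero k) h.symm
      | inr k =>
        rw [hj] at h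
        simp at h
    · refine Fin.cases (fun h => ?_) (fun j' h => ?_) j
      · exfalso
        simp only [cols, Fin.cases_zero, Fin.cases_succ] at h
        cases hj : finSumFinEquiv.symm i' with
        | inl k =>
          rw [hj] at h
          simp only [Sum.map_inl, Sum.inl.injEq] at h
          exact (Fin.succ_ne_zero k) h
        | inr k =>
          rw [hj] at h
          simp at h
      · simp only [cols, Fin.cases_succ] at h
        have h2 : Function.Injective (Sum.map (Fin.succ : Fin a → Fin (a + 1)) (id : Fin b → Fin b)) :=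
          Sum.map_injective.2 ⟨Fin.succ_injective _, Function.injective_id⟩
        rw [finSumFinEquiv.symm.injective (h2 h)]
  · simp
    omega

private lemma exists_rows {a b : ℕ} {r : Fin (a + 1) → Fin (a + b + 1)} (hr : Function.Injective r) :
    ∃ e : Fin (a + 1) ⊕ Fin b ≃ Fin (a + b + 1), ∀ k, e (Sum.inl k) = r k := by
  classical
  have hc : Fintype.card ↥(Set.range r)ᶜ = b := by
    rw [Fintype.card_compl_set, Set.card_range_of_injective hr]
    simp
  refine ⟨(Equiv.sumCongr (Equiv.ofInjective r hr) (Fintype.equivFinOfCardEq hc).symm).trans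
    (Equiv.Set.sumCompl (Set.range r)), fun k => ?_⟩
  simp

/-- **The product theorem.** All determinants of the product are bounded by the determinants of `b` differences. -/
theorem abs_det_prod {a b : ℕ} (g : Fin (a + b + 1) → Fin (a + 1)) (y : Fin (a + b + 1) → Fin b → ℤ) (D : ℤ)
    (hD : ∀ u v : Fin b → Fin (a + b + 1),
      |(Matrix.of fun l j : Fin b => y (u l) j - y (v l) j).det| ≤ D) :
    |(Matrix.of fun i j : Fin (a + b) => pt (g i.succ) (y i.succ) j - pt (g 0) (y 0) j).det| ≤ D := by
  classical
  have hD0 : 0 ≤ D := (abs_nonneg _).trans (hD (fun _ => 0) (fun _ => 0))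
  rw [det_border (fun i => pt (g i) (y i))]
  set ε : Fin (a + b + 1) ≃ Fin (a + 1) ⊕ Fin b := Equiv.ofBijective (cols a b) (cols_bij a b) with hε
  set N : Fin (a + b + 1) → Fin (a + 1) ⊕ Fin b → ℤ := fun i c =>
    Sum.elim (fun k => if g i = k then 1 else 0) (y i) c with hN
  set N1 : Matrix (Fin (a + b + 1)) (Fin (a + b + 1)) ℤ := Matrix.of fun i j => N i (ε j) with hN1
  have hB : (Matrix.of fun i : Fin (a + b + 1) => (Fin.cons 1 (pt (g i) (y i)) : Fin (a + b + 1) → ℤ)) =
      N1.updateCol 0 (fun i => ∑ j, (Sum.elim (fun _ => (1 : ℤ)) (fun _ => 0) (ε j)) • N1 i j) := by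
    ext i j
    refine Fin.cases ?_ (fun j' => ?_) j
    · rw [Matrix.updateCol_self, Matrix.of_apply, Fin.cons_zero]
      have h5 : ∑ j, (Sum.elim (fun _ => (1 : ℤ)) (fun _ => 0) (ε j)) • N1 i j =
          ∑ c, (Sum.elim (fun _ => (1 : ℤ)) (fun _ => 0) c) • N i c :=
        Equiv.sum_comp ε (fun c => (Sum.elim (fun _ => (1 : ℤ)) (fun _ => 0) c) • N i c)
      rw [h5, Fintype.sum_sum_type]
      simp [hN]
    · rw [Matrix.updateCol_ne (Fin.succ_ne_zero j'), Matrix.of_apply, Fin.cons_succ]
      show pt (g i) (y i) j' = N i (cols a b j'.succ)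
      simp only [pt, hN, cols, Fin.cases_succ]
      cases finSumFinEquiv.symm j' with
      | inl k => simp
      | inr k => simp
  have hdet : (N1.updateCol 0 (fun i => ∑ j, (Sum.elim (fun _ => (1 : ℤ)) (fun _ => 0) (ε j)) • N1 i j)).det =
      N1.det := by
    rw [Matrix.det_updateCol_sum]
    have : ε 0 = Sum.inl 0 := rfl
    rw [this]
    simp
  rw [hB, hdet]
  by_cases hg : Function.Surjective g
  · obtain ⟨e, he⟩ := exists_rows (b := b) (Function.injective_surjInv hg)
    have hr : ∀ k, g (Function.surjInv hg k) = k := Function.surjInv_eq hg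
    have h1 : |(N1.submatrix e ε.symm).det| = |N1.det| := Matrix.abs_det_submatrix_equiv_equiv e ε.symm N1
    rw [← h1]
    have h2 : N1.submatrix e ε.symm = Matrix.fromBlocks 1
        (Matrix.of fun (k : Fin (a + 1)) (j : Fin b) => y (Function.surjInv hg k) j)
        (Matrix.of fun (l : Fin b) (k : Fin (a + 1)) => if g (e (Sum.inr l)) = k then (1 : ℤ) else 0)
        (Matrix.of fun (l : Fin b) (j : Fin b) => y (e (Sum.inr l)) j) := by
      ext c c'
      have h3 : N1.submatrix e ε.symm c c' = N (e c) c' := by
        simp only [Matrix.submatrix_apply, hN1, Matrix.of_apply, Equiv.apply_symm_apply]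
      rw [h3]
      cases c with
      | inl k =>
        cases c' with
        | inl k' =>
          simp only [hN, he, hr, Sum.elim_inl, Matrix.fromBlocks_apply₁₁, Matrix.one_apply]
        | inr j =>
          simp only [hN, he, Sum.elim_inr, Matrix.fromBlocks_apply₁₂, Matrix.of_apply]
      | inr l =>
        cases c' with
        | inl k' => simp [hN]
        | inr j => simp [hN]
    rw [h2, Matrix.det_fromBlocks_one₁₁]
    have h4 : (Matrix.of fun (l : Fin b) (j : Fin b) => y (e (Sum.inr l)) j) -
        (Matrix.of fun (l : Fin b) (k : Fin (a + 1)) => if g (e (Sum.inr l)) = k then (1 : ℤ) else 0) *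
          (Matrix.of fun (k : Fin (a + 1)) (j : Fin b) => y (Function.surjInv hg k) j) =
        Matrix.of fun (l j : Fin b) => y (e (Sum.inr l)) j - y (Function.surjInv hg (g (e (Sum.inr l)))) j := by
      ext l j
      simp [Matrix.mul_apply]
    rw [h4]
    exact hD (fun l => e (Sum.inr l)) (fun l => Function.surjInv hg (g (e (Sum.inr l))))
  · have h0 : N1.det = 0 := by
      unfold Function.Surjective at hg
      push Not at hg
      obtain ⟨k, hk⟩ := hg
      refine Matrix.det_eq_zero_of_column_eq_zero (ε.symm (Sum.inl k)) fun i => ?_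
      simp only [hN1, Matrix.of_apply, Equiv.apply_symm_apply, hN, Sum.elim_inl]
      exact if_neg (hk i)
    rw [h0, abs_zero]
    exact hD0

end H43SN
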