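import Pool.Agent.Lib.H43SN.P
import Pool.Agent.Lib.H49SV.G

/-! # Configurations from products -/

set_option autoImplicit false

namespace H43SN

open Finset

/-- The real point. -/
def cast {d : ℕ} (x : Fin d → ℤ) : Fin d → ℝ := fun j => (x j : ℝ)

theorem cast_injective {d : ℕ} : Function.Injective (cast (d := d)) := by
  intro x y h
  funext j
  have := congrFun h j
  simpa [cast] using this

/-- A finite set of integral points whose affine span is everything contains such a set of every size between `d + 1`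
and its own. -/
theorem exists_subset_span {d : ℕ} (S : Finset (Fin d → ℤ))
    (hS : affineSpan ℝ (cast '' (S : Set (Fin d → ℤ))) = ⊤) (n : ℕ) (h1 : d + 1 ≤ n) (h2 : n ≤ S.card) :
    ∃ X : Fin n → Fin d → ℤ, Function.Injective X ∧ (∀ i, X i ∈ S) ∧
      affineSpan ℝ (Set.range fun i => cast (X i)) = ⊤ := by
  classical
  obtain ⟨t, hts, hspan, hind⟩ := exists_affineIndependent ℝ (Fin d → ℝ) (cast '' (S : Set (Fin d → ℤ)))
  rw [hS] at hspan
  have htf : t.Finite := (S.finite_toSet.image _).subset hts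
  have : Fintype t := htf.fintype
  have hcard : Fintype.card t = d + 1 := by
    have h3 := hind.affineSpan_eq_top_iff_card_eq_finrank_add_one.1 (by rw [Subtype.range_coe]; exact hspan)
    rw [h3]
    simp
  set T : Finset (Fin d → ℤ) := S.filter fun x => cast x ∈ t with hT
  have hTt : cast '' (T : Set (Fin d → ℤ)) = t := by
    ext z
    constructor
    · rintro ⟨x, hx, rfl⟩
      exact (mem_filter.1 (mem_coe.1 hx)).2
    · intro hz
      obtain ⟨x, hx, rfl⟩ := hts hz
      exact ⟨x, mem_coe.2 (mem_filter.2 ⟨mem_coe.1 hx, hz⟩), rfl⟩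
  have hTc : T.card = d + 1 := by
    rw [← hcard, ← Set.toFinset_card]
    have h4 : t.toFinset = T.image cast := by
      ext z
      rw [Set.mem_toFinset, ← hTt]
      simp
    rw [h4, Finset.card_image_of_injective _ cast_injective]
  obtain ⟨U, hTU, hUS, hUc⟩ := Finset.exists_subsuperset_card_eq (Finset.filter_subset _ S) (by rw [← hT, hTc]; exact h1) h2
  have e := U.equivFinOfCardEq hUc
  refine ⟨fun i => (e.symm i : Fin d → ℤ), fun i j hij => e.symm.injective (Subtype.ext hij),
    fun i => hUS (e.symm i).2, ?_⟩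
  have h5 : t ⊆ Set.range fun i => cast (e.symm i : Fin d → ℤ) := by
    rw [← hTt]
    rintro _ ⟨x, hx, rfl⟩
    exact ⟨e ⟨x, hTU (mem_coe.1 hx)⟩, by simp⟩
  have h6 := affineSpan_mono ℝ h5
  rw [hspan] at h6
  exact top_le_iff.1 h6

/-- The product of the vertices of the unit simplex with `Y`. -/
def prodSet (a : ℕ) {b : ℕ} (Y : Finset (Fin b → ℤ)) : Finset (Fin (a + b) → ℤ) :=
  ((univ : Finset (Fin (a + 1))) ×ˢ Y).image fun x => pt x.1 x.2

theorem pt_injective {a b : ℕ} : Function.Injective fun x : Fin (a + 1) × (Fin b → ℤ) => pt x.1 x.2 := by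
  rintro ⟨g, y⟩ ⟨g', y'⟩ h
  have h1 : ∀ k : Fin a, (g = k.succ ↔ g' = k.succ) := by
    intro k
    have := congrFun h (Fin.castAdd b k)
    simp only [pt, finSumFinEquiv_symm_apply_castAdd, Sum.elim_inl] at this
    by_cases h1 : g = k.succ <;> by_cases h2 : g' = k.succ <;> simp_all
  have h2 : y = y' := by
    funext l
    have := congrFun h (Fin.natAdd a l)
    simpa only [pt, finSumFinEquiv_symm_apply_natAdd, Sum.elim_inr] using this
  have h3 : g = g' := by
    rcases Fin.eq_zero_or_eq_succ g with hg | ⟨k, hg⟩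
    · rcases Fin.eq_zero_or_eq_succ g' with hg' | ⟨k', hg'⟩
      · rw [hg, hg']
      · rw [(h1 k').2 hg', hg']
    · rw [hg, (h1 k).1 hg]
  rw [h2, h3]

theorem card_prodSet (a : ℕ) {b : ℕ} (Y : Finset (Fin b → ℤ)) : (prodSet a Y).card = (a + 1) * Y.card := by
  rw [prodSet, Finset.card_image_of_injective _ pt_injective, Finset.card_product, Finset.card_univ, Fintype.card_fin]

theorem span_prodSet (a : ℕ) {b : ℕ} (Y : Finset (Fin b → ℤ)) (hYn : Y.Nonempty)
    (hY : ∃ u v : Fin b → Fin b → ℤ, (∀ l, u l ∈ Y) ∧ (∀ l, v l ∈ Y) ∧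
      (Matrix.of fun l j : Fin b => u l j - v l j).det ≠ 0) :
    affineSpan ℝ (cast '' (prodSet a Y : Set (Fin (a + b) → ℤ))) = ⊤ := by
  classical
  obtain ⟨y0, hy0⟩ := hYn
  obtain ⟨u, v, hu, hv, hdet⟩ := hY
  have hmem : ∀ (g : Fin (a + 1)) (y : Fin b → ℤ), y ∈ Y → cast (pt g y) ∈
      cast '' (prodSet a Y : Set (Fin (a + b) → ℤ)) := fun g y hy =>
    ⟨pt g y, mem_coe.2 (mem_image.2 ⟨(g, y), mem_product.2 ⟨mem_univ _, hy⟩, rfl⟩), rfl⟩
  rw [AffineSubspace.affineSpan_eq_top_iff_vectorSpan_eq_top_of_nonempty ℝ _ _ ⟨_, hmem 0 y0 hy0⟩]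
  by_contra hne
  obtain ⟨f, hf0, hf⟩ := Submodule.exists_le_ker_of_lt_top _ (lt_top_iff_ne_top.2 hne)
  have hd : ∀ g y g' y', y ∈ Y → y' ∈ Y → f (cast (pt g y) - cast (pt g' y')) = 0 := by
    intro g y g' y' hy hy'
    exact hf (vsub_mem_vectorSpan ℝ (hmem g y hy) (hmem g' y' hy'))
  apply hf0
  -- the first coordinates
  have hα : ∀ k : Fin a, f (Pi.single (Fin.castAdd b k) 1) = 0 := by
    intro k
    have h1 := hd k.succ y0 0 y0 hy0 hy0
    have h2 : cast (pt k.succ y0) - cast (pt (0 : Fin (a + 1)) y0) = Pi.single (Fin.castAdd b k) 1 := by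
      funext j
      refine Fin.addCases (fun k' => ?_) (fun l => ?_) j
      · simp only [cast, pt, Pi.sub_apply, finSumFinEquiv_symm_apply_castAdd, Sum.elim_inl]
        by_cases hk : k' = k
        · subst hk
          simp [(Fin.succ_ne_zero k').symm]
        · have h3 : ¬ k.succ = k'.succ := fun h => hk (Fin.succ_injective _ h).symm
          have h4 : Fin.castAdd b k' ≠ Fin.castAdd b k := fun h => hk (Fin.castAdd_injective a b h)
          simp [h3, h4, (Fin.succ_ne_zero k').symm]
      · simp only [cast, pt, Pi.sub_apply, finSumFinEquiv_symm_apply_natAdd, Sum.elim_inr, sub_self]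
        rw [Pi.single_eq_of_ne]
        intro h
        have := congrArg Fin.val h
        simp at this
        omega
    rw [h2] at h1
    exact h1
  -- the last coordinates
  have hβ : ∀ l : Fin b, f (Pi.single (Fin.natAdd a l) 1) = 0 := by
    have h1 : ∀ y y' : Fin b → ℤ, y ∈ Y → y' ∈ Y →
        ∑ l : Fin b, ((y l - y' l : ℤ) : ℝ) * f (Pi.single (Fin.natAdd a l) 1) = 0 := by
      intro y y' hy hy'
      have h2 := hd 0 y 0 y' hy hy'
      have h3 : cast (pt (0 : Fin (a + 1)) y) - cast (pt (0 : Fin (a + 1)) y') =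
          ∑ l : Fin b, ((y l - y' l : ℤ) : ℝ) • (Pi.single (Fin.natAdd a l) 1 : Fin (a + b) → ℝ) := by
        funext j
        rw [Finset.sum_apply]
        refine Fin.addCases (fun k' => ?_) (fun l => ?_) j
        · simp only [cast, pt, Pi.sub_apply, finSumFinEquiv_symm_apply_castAdd, Sum.elim_inl, sub_self,
            Pi.smul_apply, smul_eq_mul]
          symm
          refine Finset.sum_eq_zero fun l _ => ?_
          rw [Pi.single_eq_of_ne, mul_zero]
          intro h
          have := congrArg Fin.val h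
          simp at this
          omega
        · simp only [cast, pt, Pi.sub_apply, finSumFinEquiv_symm_apply_natAdd, Sum.elim_inr,
            Pi.smul_apply, smul_eq_mul]
          rw [Finset.sum_eq_single l]
          · rw [Pi.single_eq_same, mul_one]
            push_cast
            ring
          · intro l' _ hl'
            rw [Pi.single_eq_of_ne, mul_zero]
            intro h
            exact hl' (Fin.natAdd_injective _ _ h).symm
          · intro h
            exact absurd (mem_univ _) h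
      rw [h3, map_sum] at h2
      rw [← h2]
      refine Finset.sum_congr rfl fun l _ => ?_
      rw [map_smul, smul_eq_mul]
    set M : Matrix (Fin b) (Fin b) ℝ := Matrix.of fun l j => ((u l j - v l j : ℤ) : ℝ) with hM
    have hMdet : M.det ≠ 0 := by
      have h5 : M = (Matrix.of fun l j : Fin b => u l j - v l j).map (Int.castRingHom ℝ) := by
        ext l j
        simp [hM]
      rw [h5, ← RingHom.mapMatrix_apply, ← RingHom.map_det]
      simpa using hdet
    have h6 : M.mulVec (fun l => f (Pi.single (Fin.natAdd a l) 1)) = 0 := by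
      funext l
      exact h1 (u l) (v l) (hu l) (hv l)
    have h7 := Matrix.eq_zero_of_mulVec_eq_zero hMdet h6
    exact fun l => congrFun h7 l
  refine LinearMap.pi_ext' fun j => LinearMap.ext_ring ?_
  simp only [LinearMap.comp_apply, LinearMap.single_apply, LinearMap.zero_apply]
  refine Fin.addCases (fun k => hα k) (fun l => hβ l) j

/-- **Configurations from products.** -/
theorem exists_config {a b : ℕ} (Y : Finset (Fin b → ℤ)) (D : ℤ) (hYn : Y.Nonempty)
    (hD : ∀ u v : Fin b → Fin b → ℤ, (∀ l, u l ∈ Y) → (∀ l, v l ∈ Y) →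
      |(Matrix.of fun l j : Fin b => u l j - v l j).det| ≤ D)
    (hY : ∃ u v : Fin b → Fin b → ℤ, (∀ l, u l ∈ Y) ∧ (∀ l, v l ∈ Y) ∧
      (Matrix.of fun l j : Fin b => u l j - v l j).det ≠ 0)
    (n : ℕ) (h1 : a + b + 1 ≤ n) (h2 : n ≤ (a + 1) * Y.card) :
    ∃ X : Fin n → Fin (a + b) → ℤ, Function.Injective X ∧
      affineSpan ℝ (Set.range fun i => cast (X i)) = ⊤ ∧
      ∀ u : Fin (a + b + 1) → Fin n,
        |(Matrix.of fun i j : Fin (a + b) => X (u i.succ) j - X (u 0) j).det| ≤ D := by
  classical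
  obtain ⟨X, hX, hXS, hspan⟩ := exists_subset_span (prodSet a Y) (span_prodSet a Y hYn hY) n h1
    (by rw [card_prodSet]; exact h2)
  refine ⟨X, hX, hspan, fun u => ?_⟩
  have h3 : ∀ i, ∃ x : Fin (a + 1) × (Fin b → ℤ), x.2 ∈ Y ∧ pt x.1 x.2 = X i := by
    intro i
    obtain ⟨x, hx, hxi⟩ := mem_image.1 (hXS i)
    exact ⟨x, (mem_product.1 hx).2, hxi⟩
  choose x hx hxi using h3
  have h4 := abs_det_prod (fun i => (x (u i)).1) (fun i => (x (u i)).2) D
    (fun p q => hD (fun l => (x (u (p l))).2) (fun l => (x (u (q l))).2) (fun l => hx _) (fun l => hx _))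
  have h5 : (Matrix.of fun i j : Fin (a + b) => X (u i.succ) j - X (u 0) j) =
      Matrix.of fun i j : Fin (a + b) => pt (x (u i.succ)).1 (x (u i.succ)).2 j - pt (x (u 0)).1 (x (u 0)).2 j := by
    ext i j
    simp only [Matrix.of_apply, hxi]
  rw [h5]
  exact h4

/-- The quotient of the largest and the least nonzero determinant of an integral configuration. -/
theorem ratio {d n : ℕ} (X : Fin n → Fin d → ℤ) (D : ℤ)
    (hD : ∀ u : Fin (d + 1) → Fin n, |(Matrix.of fun i j : Fin d => X (u i.succ) j - X (u 0) j).det| ≤ D)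
    (v w : Fin (d + 1) → Fin n) (hw : (Pool.Agent.Lib.H49SV.diffs ((fun i => cast (X i)) ∘ w)).det ≠ 0) :
    |(Pool.Agent.Lib.H49SV.diffs ((fun i => cast (X i)) ∘ v)).det| /
      |(Pool.Agent.Lib.H49SV.diffs ((fun i => cast (X i)) ∘ w)).det| ≤ D := by
  have key : ∀ u : Fin (d + 1) → Fin n, (Pool.Agent.Lib.H49SV.diffs ((fun i => cast (X i)) ∘ u)).det =
      (((Matrix.of fun i j : Fin d => X (u i.succ) j - X (u 0) j).det : ℤ) : ℝ) := by
    intro u
    have h5 : Pool.Agent.Lib.H49SV.diffs ((fun i => cast (X i)) ∘ u) =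
        (Matrix.of fun i j : Fin d => X (u i.succ) j - X (u 0) j).map (Int.castRingHom ℝ) := by
      ext i j
      simp [Pool.Agent.Lib.H49SV.diffs, cast]
    rw [h5, ← RingHom.mapMatrix_apply, ← RingHom.map_det]
    simp
  rw [key] at hw ⊢
  rw [key]
  have hw' : (Matrix.of fun i j : Fin d => X (w i.succ) j - X (w 0) j).det ≠ 0 := by
    intro h
    rw [h] at hw
    simp at hw
  have h1 : (1 : ℤ) ≤ |(Matrix.of fun i j : Fin d => X (w i.succ) j - X (w 0) j).det| :=
    Int.one_le_abs hw'
  have h2 := hD v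
  have h3 : (0 : ℤ) ≤ D := (abs_nonneg _).trans h2
  rw [← Int.cast_abs, ← Int.cast_abs, div_le_iff₀ (by exact_mod_cast (by omega : (0 : ℤ) < _))]
  have h4 : |(Matrix.of fun i j : Fin d => X (v i.succ) j - X (v 0) j).det| ≤
      D * |(Matrix.of fun i j : Fin d => X (w i.succ) j - X (w 0) j).det| :=
    h2.trans (le_mul_of_one_le_right h3 h1)
  exact_mod_cast h4

end H43SN
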