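import Pool.Agent.Lib.H43SN.U
import Pool.Agent.Lib.H43SN.W

/-! # The product of a unit simplex with a simplex which has one long edge -/

set_option autoImplicit false

namespace H43SN

open Finset

/-- The points `t e_0`, `0 ≤ t ≤ M`, and `e_1, ..., e_c`. -/
def longSet (c M : ℕ) : Finset (Fin (c + 1) → ℤ) :=
  ((range (M + 1)).image fun t : ℕ => (Pi.single 0 (t : ℤ) : Fin (c + 1) → ℤ)) ∪
    ((univ : Finset (Fin c)).image fun k => (Pi.single k.succ 1 : Fin (c + 1) → ℤ))

theorem mem_longSet {c M : ℕ} {y : Fin (c + 1) → ℤ} :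
    y ∈ longSet c M ↔ (∃ t : ℕ, t ≤ M ∧ y = Pi.single 0 (t : ℤ)) ∨ ∃ k : Fin c, y = Pi.single k.succ 1 := by
  simp only [longSet, mem_union, mem_image, mem_range, mem_univ, true_and]
  constructor
  · rintro (⟨t, ht, rfl⟩ | ⟨k, rfl⟩)
    · exact Or.inl ⟨t, by omega, rfl⟩
    · exact Or.inr ⟨k, rfl⟩
  · rintro (⟨t, ht, rfl⟩ | ⟨k, rfl⟩)
    · exact Or.inl ⟨t, by omega, rfl⟩
    · exact Or.inr ⟨k, rfl⟩

theorem card_longSet (c M : ℕ) : (longSet c M).card = M + (c + 1) := by
  rw [longSet, Finset.card_union_of_disjoint, Finset.card_image_of_injective, Finset.card_image_of_injective]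
  · simp
    omega
  · intro k k' h
    have := congrFun h k.succ
    by_contra hne
    simp only at this
    rw [Pi.single_eq_same, Pi.single_eq_of_ne (fun h => hne (Fin.succ_injective _ h))] at this
    exact one_ne_zero this
  · intro t t' h
    have := congrFun h 0
    simp only [Pi.single_eq_same] at this
    exact_mod_cast this
  · rw [Finset.disjoint_left]
    intro y h1 h2
    obtain ⟨t, -, rfl⟩ := mem_image.1 h1
    obtain ⟨k, -, h⟩ := mem_image.1 h2
    have := congrFun h k.succ
    rw [Pi.single_eq_same, Pi.single_eq_of_ne (Fin.succ_ne_zero k)] at this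
    exact one_ne_zero this

/-- The first coordinate is cut off at `s`. -/
private def cut {c : ℕ} (s : ℕ) (y : Fin (c + 1) → ℤ) : Fin (c + 1) → ℤ := Function.update y 0 (min (y 0) s)

private def ind {c : ℕ} (s : ℕ) (y : Fin (c + 1) → ℤ) : Fin (c + 1) → ℤ :=
  Function.update y 0 (if (s : ℤ) + 1 ≤ y 0 then 1 else 0)

private lemma ind_unit {c M s : ℕ} {y : Fin (c + 1) → ℤ} (hy : y ∈ longSet c M) :
    ∃ w : Option (Fin (c + 1)), ∀ j, ind s y j = if w = some j then 1 else 0 := by
  rcases mem_longSet.1 hy with ⟨t, -, rfl⟩ | ⟨k, rfl⟩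
  · by_cases hs : s + 1 ≤ t
    · refine ⟨some 0, fun j => ?_⟩
      refine Fin.cases ?_ (fun j' => ?_) j
      · simp only [ind, Function.update_self, Pi.single_eq_same]
        rw [if_pos (by exact_mod_cast hs)]
        simp
      · simp [ind, (Fin.succ_ne_zero j').symm]
    · refine ⟨none, fun j => ?_⟩
      refine Fin.cases ?_ (fun j' => ?_) j
      · simp only [ind, Function.update_self, Pi.single_eq_same]
        rw [if_neg (by intro h; exact hs (by exact_mod_cast h))]
        simp
      · simp [ind]
  · refine ⟨some k.succ, fun j => ?_⟩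
    refine Fin.cases ?_ (fun j' => ?_) j
    · simp only [ind, Function.update_self]
      rw [Pi.single_eq_of_ne (Fin.succ_ne_zero k).symm, if_neg (by omega)]
      simp
    · simp only [ind]
      rw [Function.update_of_ne (Fin.succ_ne_zero j')]
      by_cases hk : j' = k
      · subst hk
        simp
      · have h1 : ¬ k = j' := fun h => hk h.symm
        rw [Pi.single_eq_of_ne (fun h => hk (Fin.succ_injective _ h))]
        simp [h1]

/-- The determinants of differences are at most `M`. -/
theorem longSet_det (c M : ℕ) (u v : Fin (c + 1) → Fin (c + 1) → ℤ) (hu : ∀ l, u l ∈ longSet c M)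
    (hv : ∀ l, v l ∈ longSet c M) : |(Matrix.of fun l j : Fin (c + 1) => u l j - v l j).det| ≤ (M : ℤ) := by
  have hstep : ∀ s : ℕ, |(Matrix.of fun l j : Fin (c + 1) => cut s (u l) j - cut s (v l) j).det| ≤ (s : ℤ) := by
    intro s
    induction s with
    | zero =>
      have h0 : (Matrix.of fun l j : Fin (c + 1) => cut 0 (u l) j - cut 0 (v l) j).det = 0 := by
        refine Matrix.det_eq_zero_of_column_eq_zero 0 fun l => ?_
        have hz : ∀ y : Fin (c + 1) → ℤ, y ∈ longSet c M → cut 0 y 0 = 0 := by
          intro y hy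
          simp only [cut, Function.update_self]
          rcases mem_longSet.1 hy with ⟨t, -, rfl⟩ | ⟨k, rfl⟩
          · simp
          · rw [Pi.single_eq_of_ne (Fin.succ_ne_zero k).symm]
            simp
        simp only [Matrix.of_apply]
        rw [hz _ (hu l), hz _ (hv l), sub_self]
      rw [h0]
      simp
    | succ s ih =>
      set B : Matrix (Fin (c + 1)) (Fin (c + 1)) ℤ := Matrix.of fun l j => cut s (u l) j - cut s (v l) j with hB
      set I : Matrix (Fin (c + 1)) (Fin (c + 1)) ℤ := Matrix.of fun l j => ind s (u l) j - ind s (v l) j with hI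
      have hB' : B = B.updateCol 0 (fun l => cut s (u l) 0 - cut s (v l) 0) := by
        ext l j
        refine Fin.cases ?_ (fun j' => ?_) j
        · rw [Matrix.updateCol_self]
          rfl
        · rw [Matrix.updateCol_ne (Fin.succ_ne_zero j')]
      have hI' : I = B.updateCol 0 (fun l => ind s (u l) 0 - ind s (v l) 0) := by
        ext l j
        refine Fin.cases ?_ (fun j' => ?_) j
        · rw [Matrix.updateCol_self]
          rfl
        · rw [Matrix.updateCol_ne (Fin.succ_ne_zero j')]
          simp only [hI, hB, Matrix.of_apply, ind, cut]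
          rw [Function.update_of_ne (Fin.succ_ne_zero j'), Function.update_of_ne (Fin.succ_ne_zero j'),
            Function.update_of_ne (Fin.succ_ne_zero j'), Function.update_of_ne (Fin.succ_ne_zero j')]
      have hC : (Matrix.of fun l j : Fin (c + 1) => cut (s + 1) (u l) j - cut (s + 1) (v l) j) =
          B.updateCol 0 ((fun l => cut s (u l) 0 - cut s (v l) 0) + fun l => ind s (u l) 0 - ind s (v l) 0) := by
        ext l j
        refine Fin.cases ?_ (fun j' => ?_) j
        · rw [Matrix.updateCol_self]
          have hk : ∀ y : Fin (c + 1) → ℤ, cut (s + 1) y 0 = cut s y 0 + ind s y 0 := by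
            intro y
            simp only [cut, ind, Function.update_self]
            push_cast
            split_ifs with h <;> omega
          simp only [Matrix.of_apply, Pi.add_apply]
          rw [hk, hk]
          ring
        · rw [Matrix.updateCol_ne (Fin.succ_ne_zero j')]
          simp only [hB, Matrix.of_apply, cut]
          rw [Function.update_of_ne (Fin.succ_ne_zero j'), Function.update_of_ne (Fin.succ_ne_zero j'),
            Function.update_of_ne (Fin.succ_ne_zero j'), Function.update_of_ne (Fin.succ_ne_zero j')]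
      rw [hC, Matrix.det_updateCol_add, ← hB', ← hI']
      have h1 : |I.det| ≤ 1 := by
        refine abs_det_le_one I fun l => ?_
        obtain ⟨w, hw⟩ := ind_unit (s := s) (hu l)
        obtain ⟨w', hw'⟩ := ind_unit (s := s) (hv l)
        refine ⟨w, w', fun j => ?_⟩
        simp only [hI, Matrix.of_apply]
        rw [hw, hw']
      push_cast
      exact (abs_add_le _ _).trans (add_le_add ih h1)
  have hM : ∀ y : Fin (c + 1) → ℤ, y ∈ longSet c M → cut M y = y := by
    intro y hy
    simp only [cut]
    rw [min_eq_left, Function.update_eq_self]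
    rcases mem_longSet.1 hy with ⟨t, ht, rfl⟩ | ⟨k, rfl⟩
    · rw [Pi.single_eq_same]
      exact_mod_cast ht
    · rw [Pi.single_eq_of_ne (Fin.succ_ne_zero k).symm]
      positivity
  have h2 := hstep M
  have h3 : (Matrix.of fun l j : Fin (c + 1) => cut M (u l) j - cut M (v l) j) =
      Matrix.of fun l j : Fin (c + 1) => u l j - v l j := by
    ext l j
    simp only [Matrix.of_apply]
    rw [hM _ (hu l), hM _ (hv l)]
  rwa [h3] at h2

theorem longSet_ne {c M : ℕ} (hM : 1 ≤ M) : ∃ u v : Fin (c + 1) → Fin (c + 1) → ℤ,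
    (∀ l, u l ∈ longSet c M) ∧ (∀ l, v l ∈ longSet c M) ∧
      (Matrix.of fun l j : Fin (c + 1) => u l j - v l j).det ≠ 0 := by
  refine ⟨fun l => Pi.single l 1, fun _ => Pi.single 0 0, fun l => ?_, fun l => ?_, ?_⟩
  · rw [mem_longSet]
    refine Fin.cases ?_ (fun k => ?_) l
    · exact Or.inl ⟨1, hM, by simp⟩
    · exact Or.inr ⟨k, rfl⟩
  · rw [mem_longSet]
    exact Or.inl ⟨0, Nat.zero_le _, by simp⟩
  · have h1 : (Matrix.of fun l j : Fin (c + 1) => (Pi.single l 1 : Fin (c + 1) → ℤ) j -
        (Pi.single 0 0 : Fin (c + 1) → ℤ) j) = 1 := by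
      ext l j
      simp [Matrix.one_apply, Pi.single_apply, eq_comm]
    rw [h1, Matrix.det_one]
    exact one_ne_zero

/-- `d = a + c + 1` and `d + 1 ≤ n ≤ (a + 1) (M + c + 1)`: all determinants are at most `M`. -/
theorem exists_long (a c M : ℕ) (hM : 1 ≤ M) (n : ℕ) (h1 : a + (c + 1) + 1 ≤ n)
    (h2 : n ≤ (a + 1) * (M + (c + 1))) :
    ∃ X : Fin n → Fin (a + (c + 1)) → ℤ, Function.Injective X ∧
      affineSpan ℝ (Set.range fun i => cast (X i)) = ⊤ ∧
      ∀ u : Fin (a + (c + 1) + 1) → Fin n,
        |(Matrix.of fun i j : Fin (a + (c + 1)) => X (u i.succ) j - X (u 0) j).det| ≤ (M : ℤ) :=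
  exists_config (longSet c M) M ⟨_, mem_longSet.2 (Or.inl ⟨0, Nat.zero_le _, rfl⟩)⟩
    (fun u v hu hv => longSet_det c M u v hu hv) (longSet_ne hM) n h1 (by rw [card_longSet]; exact h2)

end H43SN
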