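import Mathlib

/-! # Differences of unit vectors are unimodular -/

set_option autoImplicit false

namespace H43SN

open Finset

private lemma opt_restrict {n : ℕ} (w : Option (Fin (n + 1))) (j0 : Fin (n + 1)) :
    ∃ w' : Option (Fin n), ∀ j, (w' = some j ↔ w = some (j0.succAbove j)) := by
  cases w with
  | none => exact ⟨none, fun j => by simp⟩
  | some k =>
    by_cases hk : k = j0
    · refine ⟨none, fun j => ?_⟩
      constructor
      · intro h
        exact absurd h (by simp)
      · intro h
        exact absurd ((Option.some.inj h).symm.trans hk) (Fin.succAbove_ne j0 j)
    · obtain ⟨k', hk'⟩ := Fin.exists_succAbove_eq hk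
      refine ⟨some k', fun j => ?_⟩
      constructor
      · intro h
        rw [← Option.some.inj h, hk']
      · intro h
        have h1 := Option.some.inj h
        rw [← hk'] at h1
        rw [Fin.succAbove_right_injective h1]

/-- A square integral matrix in which each row is a difference of two vectors, each of them zero or a unit vector, has
determinant `0`, `1` or `-1`. -/
theorem abs_det_le_one : ∀ {n : ℕ} (M : Matrix (Fin n) (Fin n) ℤ),
    (∀ i, ∃ u v : Option (Fin n), ∀ j, M i j = (if u = some j then 1 else 0) - (if v = some j then 1 else 0)) →
    |M.det| ≤ 1
  | 0, M, _ => by simp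
  | n + 1, M, h => by
    by_cases hB : ∀ i, ∑ j, M i j = 0
    · have h0 : M.det = 0 := by
        refine Matrix.exists_mulVec_eq_zero_iff.1 ⟨fun _ => 1, ?_, ?_⟩
        · intro h1
          have := congrFun h1 0
          simp at this
        · funext i
          simp only [Matrix.mulVec, dotProduct, mul_one, Pi.zero_apply]
          exact hB i
      rw [h0]
      simp
    · push Not at hB
      obtain ⟨i, hi⟩ := hB
      obtain ⟨j0, c, hc, hrow⟩ : ∃ (j0 : Fin (n + 1)) (c : ℤ), |c| = 1 ∧ ∀ j, j ≠ j0 → M i j = 0 ∧ M i j0 = c := by
        obtain ⟨u, v, huv⟩ := h i
        have hs : ∀ w : Option (Fin (n + 1)), ∑ j, (if w = some j then (1 : ℤ) else 0) =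
            if w = none then 0 else 1 := by
          intro w
          cases w with
          | none => simp
          | some k => simp
        have hsum : ∑ j, M i j = (if u = none then 0 else 1) - (if v = none then 0 else 1) := by
          rw [Finset.sum_congr rfl fun j _ => huv j, Finset.sum_sub_distrib, hs, hs]
        cases u with
        | none =>
          cases v with
          | none =>
            exfalso
            apply hi
            rw [hsum]
            simp
          | some k =>
            refine ⟨k, -1, by simp, fun j hj => ⟨?_, ?_⟩⟩
            · rw [huv j]
              have : ¬ k = j := fun h => hj h.symm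
              simp [this]
            · rw [huv k]
              simp
        | some k =>
          cases v with
          | none =>
            refine ⟨k, 1, by simp, fun j hj => ⟨?_, ?_⟩⟩
            · rw [huv j]
              have : ¬ k = j := fun h => hj h.symm
              simp [this]
            · rw [huv k]
              simp
          | some l =>
            exfalso
            apply hi
            rw [hsum]
            simp
      rw [Matrix.det_succ_row M i, Finset.sum_eq_single j0]
      · have hc' : |M i j0| ≤ 1 := by
          by_cases hn : ∃ j, j ≠ j0
          · obtain ⟨j, hj⟩ := hn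
            rw [(hrow j hj).2, hc]
          · obtain ⟨u, v, huv⟩ := h i
            rw [huv j0]
            split_ifs <;> simp
        have hm := abs_det_le_one (M.submatrix i.succAbove j0.succAbove) (fun i' => by
          obtain ⟨u, v, huv⟩ := h (i.succAbove i')
          obtain ⟨u', hu'⟩ := opt_restrict u j0
          obtain ⟨v', hv'⟩ := opt_restrict v j0
          refine ⟨u', v', fun j => ?_⟩
          rw [Matrix.submatrix_apply, huv]
          simp only [hu', hv'])
        rw [abs_mul, abs_mul, abs_pow, abs_neg, abs_one, one_pow, one_mul]
        calc |M i j0| * |(M.submatrix i.succAbove j0.succAbove).det| ≤ 1 * 1 :=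
              mul_le_mul hc' hm (abs_nonneg _) (by norm_num)
          _ = 1 := by norm_num
      · intro j _ hj
        rw [(hrow j hj).1]
        ring
      · intro h1
        exact absurd (mem_univ _) h1

end H43SN
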